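import Pool.Agent.MP_c1891a_nt.H43.Spec
import Pool.Agent.MP_c1891a_nt.H21.BPa

/-
A uniform zero estimate for a finite family of analytic functions.
-/

namespace Pool.Agent.MP_c1891a_nt.H43

open Finset Filter Topology

theorem ze_deriv {f : ℝ → ℝ} {v : ℝ} (h : AnalyticAt ℝ f v) (k : ℕ) :
    HasDerivAt (deriv^[k] f) (deriv^[k + 1] f v) v := by
  have := (h.iterated_deriv k).differentiableAt.hasDerivAt
  rw [Function.iterate_succ']
  exact this

theorem ze_bound {ι : Type} [Fintype ι] {g : ι → ℝ → ℝ} {a b : ℝ}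
    (h : ∀ i, AnalyticOnNhd ℝ (g i) (Set.Icc a b)) (n : ℕ) :
    ∃ M : ℝ, 0 ≤ M ∧ ∀ k ≤ n, ∀ v ∈ Set.Icc a b, ∑ i, |deriv^[k] (g i) v| ≤ M := by
  have hc : ContinuousOn (fun v => ∑ k ∈ range (n + 1), ∑ i, |deriv^[k] (g i) v|)
      (Set.Icc a b) := by
    refine continuousOn_finsetSum _ fun k _ => continuousOn_finsetSum _ fun i _ => ?_
    exact fun v hv => ((h i v hv).iterated_deriv k).continuousAt.continuousWithinAt.abs
  obtain ⟨M, hM⟩ := isCompact_Icc.exists_bound_of_continuousOn hc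
  refine ⟨max M 0, le_max_right _ _, fun k hk v hv => ?_⟩
  have h1 := (le_abs_self _).trans (hM v hv)
  have h2 : ∑ i, |deriv^[k] (g i) v| ≤ ∑ k ∈ range (n + 1), ∑ i, |deriv^[k] (g i) v| :=
    Finset.single_le_sum (f := fun k => ∑ i, |deriv^[k] (g i) v|)
      (fun k _ => Finset.sum_nonneg fun i _ => abs_nonneg _) (Finset.mem_range.2 (by omega))
  exact h2.trans (h1.trans (le_max_left _ _))

theorem ze_nonvan {ι : Type} [Fintype ι] {g : ι → ℝ → ℝ} {a b : ℝ}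
    (h : ∀ i, AnalyticOnNhd ℝ (g i) (Set.Icc a b))
    (hnv : ∀ v₁ ∈ Set.Icc a b, ∀ w : ι → ℝ, (∀ᶠ v in 𝓝 v₁, ∑ i, w i * g i v = 0) → w = 0) :
    ∃ (r : ℕ) (c₀ : ℝ), 0 < c₀ ∧ ∀ v ∈ Set.Icc a b, ∀ w : ι → ℝ, ‖w‖ = 1 →
      ∃ k ≤ r, c₀ ≤ |∑ i, w i * deriv^[k] (g i) v| := by
  have hK : IsCompact (Set.Icc a b ×ˢ Metric.sphere (0 : ι → ℝ) 1) :=
    isCompact_Icc.prod (isCompact_sphere _ _)
  have key := hK.induction_on (p := fun t => ∃ (r : ℕ) (c₀ : ℝ), 0 < c₀ ∧ ∀ z ∈ t,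
      ∃ k ≤ r, c₀ ≤ |∑ i, z.2 i * deriv^[k] (g i) z.1|) ⟨0, 1, one_pos, by simp⟩
    (by
      rintro s t hst ⟨r, c₀, hc, ht⟩
      exact ⟨r, c₀, hc, fun z hz => ht z (hst hz)⟩)
    (by
      rintro s t ⟨r, c₀, hc, hs⟩ ⟨r', c₀', hc', ht⟩
      refine ⟨max r r', min c₀ c₀', lt_min hc hc', ?_⟩
      rintro z (hz | hz)
      · obtain ⟨k, hk, hb⟩ := hs z hz
        exact ⟨k, hk.trans (le_max_left _ _), (min_le_left _ _).trans hb⟩
      · obtain ⟨k, hk, hb⟩ := ht z hz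
        exact ⟨k, hk.trans (le_max_right _ _), (min_le_right _ _).trans hb⟩)
    (by
      rintro ⟨v₁, w⟩ ⟨hv, hw⟩
      have hv : v₁ ∈ Set.Icc a b := hv
      have hw : ‖w‖ = 1 := by simpa using hw
      have hex : ∃ k, ∑ i, w i * deriv^[k] (g i) v₁ ≠ 0 := by
        by_contra hcon
        push Not at hcon
        have han : AnalyticAt ℝ (fun v => ∑ i, w i * g i v) v₁ :=
          Finset.analyticAt_fun_sum _ fun i _ => analyticAt_const.mul (h i v₁ hv)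
        have hz : ∀ᶠ v in nhds v₁, ∑ i, w i * g i v = 0 := by
          rw [← analyticOrderAt_eq_top (f := fun v => ∑ i, w i * g i v),
            ENat.eq_top_iff_forall_ge]
          intro m
          rw [natCast_le_analyticOrderAt_iff_iteratedDeriv_eq_zero han]
          intro j _
          rw [iteratedDeriv_fun_sum (f := fun i v => w i * g i v) (fun i _ =>
            (analyticAt_const.mul (h i v₁ hv)).contDiffAt), ← hcon j]
          refine Finset.sum_congr rfl fun i _ => ?_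
          rw [iteratedDeriv_const_mul_field, iteratedDeriv_eq_iterate]
        rw [hnv v₁ hv w hz, norm_zero] at hw
        exact zero_ne_one hw
      obtain ⟨k, hk⟩ := hex
      have hc : ContinuousAt (fun z : ℝ × (ι → ℝ) => |∑ i, z.2 i * deriv^[k] (g i) z.1|)
          (v₁, w) := by
        refine ContinuousAt.abs (tendsto_finsetSum _ fun i _ => ?_)
        refine ContinuousAt.mul (by fun_prop) ?_
        exact ContinuousAt.comp (f := Prod.fst) ((h i v₁ hv).iterated_deriv k).continuousAt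
          continuousAt_fst
      have hpos : 0 < |∑ i, w i * deriv^[k] (g i) v₁| := abs_pos.2 hk
      have hev := hc.eventually (lt_mem_nhds (half_lt_self hpos))
      exact ⟨_, mem_nhdsWithin_of_mem_nhds hev, k, _, half_pos hpos,
        fun z hz => ⟨k, le_rfl, le_of_lt hz⟩⟩)
  obtain ⟨r, c₀, hc, hk⟩ := key
  exact ⟨r, c₀, hc, fun v hv w hw => hk (v, w) ⟨hv, by simpa using hw⟩⟩

theorem ze_core {a b : ℝ} (F : ℕ → ℝ → ℝ)
    (hF : ∀ k, ∀ t ∈ Set.Icc a b, HasDerivAt (F k) (F (k + 1) t) t)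
    (r : ℕ) (c₀ M : ℝ) (hM0 : 0 ≤ M)
    (hc : ∀ v ∈ Set.Icc a b, ∃ k ≤ r, c₀ ≤ |F k v|)
    (hM : ∀ k ≤ r + 1, ∀ v ∈ Set.Icc a b, |F k v| ≤ M)
    (ℓ τ δ : ℝ) (hδ0 : 0 < δ) (hδ : δ ≤ 2) (hτ0 : 0 ≤ τ)
    (hsm : M * ℓ + τ * (2 / δ) ^ r < c₀) (S : Finset ℝ)
    (hS : ∀ q ∈ S, q ∈ Set.Icc a b) (hu : ∀ q ∈ S, |F 0 q| ≤ τ)
    (hsep : ∀ q ∈ S, ∀ q' ∈ S, q ≠ q' → δ ≤ |q - q'|)
    (hnear : ∀ q ∈ S, ∀ q' ∈ S, |q - q'| ≤ ℓ) :
    S.card ≤ 2 ^ r := by
  classical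
  by_contra hcard
  push Not at hcard
  obtain ⟨q₀, hq₀⟩ : S.Nonempty := Finset.card_pos.1 ((Nat.zero_le _).trans_lt hcard)
  let e := S.orderEmbOfFin rfl
  let t : ℕ → ℝ := fun i => if hi : i < S.card then e ⟨i, hi⟩ else 0
  have ht : ∀ i, i < S.card → t i ∈ S := by
    intro i hi
    have := S.orderEmbOfFin_mem rfl ⟨i, hi⟩
    simp only [t, dif_pos hi]
    exact this
  have htlt : ∀ i, i + 1 < S.card → t i < t (i + 1) := by
    intro i hi
    simp only [t, dif_pos hi, dif_pos (show i < S.card by omega)]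
    exact e.strictMono (by simp [Fin.lt_def])
  obtain ⟨k, hk, hck⟩ := hc q₀ (hS q₀ hq₀)
  have hkr : 2 ^ k ≤ 2 ^ r := Nat.pow_le_pow_right (by norm_num) hk
  obtain ⟨ξ, ⟨hξ1, hξ2⟩, hξ⟩ := H91.bpa_small (Set.Icc a b ∩ Set.Icc (q₀ - ℓ) (q₀ + ℓ))
    (Set.ordConnected_Icc.inter Set.ordConnected_Icc) δ hδ0 k F t τ
    (fun k t ht => hF k t ht.1)
    (fun i hi => by
      have hq := ht i (by omega)
      have := abs_le.1 (hnear _ hq q₀ hq₀)
      exact ⟨hS _ hq, by linarith, by linarith⟩)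
    (fun i hi => by
      have hq := ht i (by omega)
      have hq' := ht (i + 1) (by omega)
      have h1 := htlt i (by omega)
      have h2 := hsep _ hq' _ hq h1.ne'
      rw [abs_of_pos (by linarith)] at h2
      linarith)
    (fun i hi => hu _ (ht i (by omega)))
  have h1 := H91.bpa_taylor _ Set.ordConnected_Icc M ξ hξ1 1 (fun j => F (k + j))
    (fun j => hF (k + j)) (fun t ht => hM (k + 1) (by omega) t ht) q₀ (hS q₀ hq₀)
  simp only [Finset.range_one, Finset.sum_singleton, add_zero, Nat.factorial_zero, Nat.cast_one,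
    div_one, pow_zero, mul_one, pow_one] at h1
  have h2 : |q₀ - ξ| ≤ ℓ := abs_le.2 ⟨by linarith [hξ2.2], by linarith [hξ2.1]⟩
  have h3 : (2 / δ) ^ k ≤ (2 / δ) ^ r := pow_le_pow_right₀ ((one_le_div hδ0).2 hδ) hk
  have h4 := abs_sub_abs_le_abs_sub (F k q₀) (F k ξ)
  have h5 := mul_le_mul_of_nonneg_left h2 hM0
  have h6 := mul_le_mul_of_nonneg_left h3 hτ0
  linarith

theorem sZE : SZE := by
  classical
  intro ι _ g a b h hnv
  obtain ⟨r, c₀, hc₀, hc⟩ := ze_nonvan h hnv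
  obtain ⟨M, hM0, hM⟩ := ze_bound h (r + 1)
  obtain ⟨ℓ, hℓ⟩ : ∃ ℓ : ℝ, ℓ = c₀ / (2 * (M + 1)) := ⟨_, rfl⟩
  have hℓ0 : 0 < ℓ := by rw [hℓ]; positivity
  have hMℓ : M * ℓ < c₀ / 2 := by
    rw [hℓ, ← mul_div_assoc, div_lt_div_iff₀ (by positivity) (by positivity)]
    nlinarith
  refine ⟨2 ^ r * (⌊(b - a) / ℓ⌋₊ + 1), r + 1, ⌈2 ^ (r + 1) / c₀⌉₊ + 1, ?_⟩
  intro N hN w hw1 hw S hS hsep
  have hN' : 2 ^ (r + 1) / c₀ + 1 ≤ N := by
    refine le_trans ?_ hN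
    push_cast
    have := Nat.le_ceil ((2 : ℝ) ^ (r + 1) / c₀)
    linarith
  have hp : (0 : ℝ) < 2 ^ (r + 1) / c₀ := by positivity
  have hN1 : 1 ≤ N := by linarith
  have hN0 : 0 < N := by linarith
  have hwn : ‖w‖ = 1 := by
    refine le_antisymm ((pi_norm_le_iff_of_nonneg zero_le_one).2 fun i => hw i) ?_
    obtain ⟨i, hi⟩ := hw1
    rw [← hi]
    exact norm_le_pi_norm w i
  let F : ℕ → ℝ → ℝ := fun k v => ∑ i, w i * deriv^[k] (g i) v
  have hF : ∀ k, ∀ t ∈ Set.Icc a b, HasDerivAt (F k) (F (k + 1) t) t := fun k t ht =>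
    HasDerivAt.fun_sum fun i _ => (ze_deriv (h i t ht) k).const_mul _
  have hFM : ∀ k ≤ r + 1, ∀ v ∈ Set.Icc a b, |F k v| ≤ M := by
    intro k hk v hv
    refine (Finset.abs_sum_le_sum_abs _ _).trans (le_trans ?_ (hM k hk v hv))
    refine Finset.sum_le_sum fun i _ => ?_
    rw [abs_mul]
    exact mul_le_of_le_one_left (abs_nonneg _) (hw i)
  have hsm : M * ℓ + (N ^ (r + 1))⁻¹ * (2 / N⁻¹) ^ r < c₀ := by
    have e3 : (N ^ (r + 1))⁻¹ * (2 / N⁻¹) ^ r = 2 ^ r / N := by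
      rw [div_inv_eq_mul, mul_pow, pow_succ]
      field_simp
    have e4 : (2 : ℝ) ^ r / N ≤ c₀ / 2 := by
      rw [div_le_div_iff₀ hN0 two_pos, ← pow_succ]
      have : (2 : ℝ) ^ (r + 1) / c₀ ≤ N := by linarith
      rw [div_le_iff₀ hc₀] at this
      linarith
    rw [e3]
    linarith
  have hcount := Finset.card_le_mul_card_image_of_maps_to (s := S)
    (t := range (⌊(b - a) / ℓ⌋₊ + 1)) (f := fun q => ⌊(q - a) / ℓ⌋₊)
    (fun q hq => by
      rw [Finset.mem_range, Nat.lt_succ_iff]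
      refine Nat.floor_le_floor (div_le_div_of_nonneg_right ?_ hℓ0.le)
      have := (hS q hq).1.2
      linarith) (2 ^ r)
    (fun j _ => by
      have hnear : ∀ q ∈ S.filter (fun q => ⌊(q - a) / ℓ⌋₊ = j),
          ∀ q' ∈ S.filter (fun q => ⌊(q - a) / ℓ⌋₊ = j), |q - q'| ≤ ℓ := by
        have aux : ∀ q ∈ S.filter (fun q => ⌊(q - a) / ℓ⌋₊ = j),
            j * ℓ ≤ q - a ∧ q - a ≤ (j + 1) * ℓ := by
          intro q hq
          obtain ⟨hq, he⟩ := Finset.mem_filter.1 hq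
          have h5 : 0 ≤ (q - a) / ℓ := div_nonneg (by linarith [(hS q hq).1.1]) hℓ0.le
          have h6 := Nat.floor_le h5
          have h7 := Nat.lt_floor_add_one ((q - a) / ℓ)
          rw [he] at h6 h7
          exact ⟨(le_div_iff₀ hℓ0).1 h6, ((div_lt_iff₀ hℓ0).1 h7).le⟩
        intro q hq q' hq'
        have := aux q hq
        have := aux q' hq'
        exact abs_le.2 ⟨by linarith, by linarith⟩
      exact ze_core F hF r c₀ M hM0 (fun v hv => hc v hv w hwn) hFM ℓ (N ^ (r + 1))⁻¹ N⁻¹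
        (by positivity) ((inv_le_one_of_one_le₀ hN1).trans one_le_two) (by positivity) hsm _
        (fun q hq => (hS q (Finset.mem_filter.1 hq).1).1)
        (fun q hq => (hS q (Finset.mem_filter.1 hq).1).2)
        (fun q hq q' hq' => hsep q (Finset.mem_filter.1 hq).1 q' (Finset.mem_filter.1 hq').1)
        hnear)
  rwa [Finset.card_range] at hcount

end Pool.Agent.MP_c1891a_nt.H43
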